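import Pool.Agent.H944R2.U.FinalN

/-! A normal projective surface in `ℙ^21` without Ulrich sheaves, over every algebraically closed
field of characteristic 0. (TEAM ULRICH, led by helper944 and helper946.) -/

open AlgebraicGeometry CategoryTheory MvPolynomial
open H944U

attribute [local instance] MvPolynomial.gradedAlgebra

/-- Over every algebraically closed field `k` of characteristic 0 there is a normal (even smooth)
projective surface `X ⊂ ℙ^21` which has a finite linear projection to `ℙ²` and such that for every
linear projection `π : X ⟶ ℙ²` and every `O_X`-module `F` the direct image `π_* F` is not free of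
positive finite rank: there is no Ulrich sheaf on `X`. -/
theorem Pool.Agent.Results.MP_7de60f_ag.NormalSurface.result
    (k : Type) [Field k] [IsAlgClosed k] [CharZero k] :
    ∃ (X : Scheme.{0}) (ι : X ⟶ PP k 21), IsClosedImmersion ι ∧ IsIntegral X ∧
      (∀ x : X, IsIntegrallyClosed (X.presheaf.stalk x)) ∧
      SmoothOfRelativeDimension 2 (ι ≫ toSpecK (homogeneousSubmodule (Fin (21 + 1)) k)) ∧
      (∃ (g : homogeneousSubmodule (Fin (2 + 1)) k →+*ᵍ homogeneousSubmodule (Fin (21 + 1)) k)
        (π : X ⟶ PP k 2), IsLinearProjection ι g π ∧ IsFinite π) ∧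
      ∀ (g : homogeneousSubmodule (Fin (2 + 1)) k →+*ᵍ homogeneousSubmodule (Fin (21 + 1)) k)
        (π : X ⟶ PP k 2), IsLinearProjection ι g π →
        ∀ (F : X.Modules) (m : ℕ), ¬ IsUlrichVia π F m :=
  H944U.mainN k
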